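import Pool.Agent.H39.Newt5.Stmts

/-! # NEWTON5, module RES: restriction of the ideal membership to `V` -/

set_option autoImplicit false

namespace Pool.Newt5

open MvPolynomial Pool.Agent.H39.MonoR Pool.Agent.H75.Mono Pool.Newt Pool.Newt2 Pool.Newt3
open Pool.Newt4 (Nfc)

namespace RES

section Gen

variable {I : Type} [Fintype I] (V : Finset I)

theorem sum_V {M : Type*} [AddCommMonoid M] (f : I → M) (h : ∀ i, i ∉ V → f i = 0) :
    ∑ i : V, f i = ∑ i, f i := by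
  rw [Finset.sum_coe_sort V f]
  exact Finset.sum_subset (Finset.subset_univ V) fun i _ hi => h i hi

open Classical in
/-- the restriction `X_j ↦ 0` for `j ∉ V` -/
noncomputable def pi : MvPolynomial I ℂ →ₐ[ℂ] MvPolynomial V ℂ :=
  aeval fun i => if h : i ∈ V then X ⟨i, h⟩ else 0

theorem pi_X_mem {i : I} (h : i ∈ V) : pi V (X i) = X ⟨i, h⟩ := by
  unfold pi
  rw [aeval_X, dif_pos h]

theorem pi_X_notMem {i : I} (h : i ∉ V) : pi V (X i) = 0 := by
  unfold pi
  rw [aeval_X, dif_neg h]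

open Classical in
theorem pi_prod_zero (Q : Finset I) (h : ∃ j ∈ Q, j ∉ V) : pi V (∏ i ∈ Q, X i) = 0 := by
  obtain ⟨j, hj, hj'⟩ := h
  rw [map_prod]
  exact Finset.prod_eq_zero hj (pi_X_notMem V hj')

theorem pi_prod (Q : Finset I) (Q' : Finset V) (h : ∀ i, i ∈ Q → i ∈ V)
    (h' : ∀ i : V, i ∈ Q' ↔ (i : I) ∈ Q) : pi V (∏ i ∈ Q, X i) = ∏ i ∈ Q', X i := by
  classical
  have e : Q = Q'.map (Function.Embedding.subtype _) := by
    ext i
    rw [Finset.mem_map]
    constructor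
    · intro hi
      exact ⟨⟨i, h i hi⟩, (h' _).2 hi, rfl⟩
    · rintro ⟨j, hj, rfl⟩
      exact (h' j).1 hj
  rw [e, Finset.prod_map, map_prod]
  refine Finset.prod_congr rfl fun i _ => ?_
  show pi V (X (i : I)) = X i
  rw [pi_X_mem V i.2]

theorem pi_lfC (β : I → ℤ) : pi V (lfC β) = lfC (fun i : V => β i) := by
  unfold lfC
  rw [map_sum, ← sum_V V (fun i => pi V (C (β i : ℂ) * X i))]
  · refine Finset.sum_congr rfl fun i _ => ?_
    rw [map_mul, pi_X_mem V i.2]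
    congr 1
    exact algHom_C _ _
  · intro i hi
    rw [map_mul, pi_X_notMem V hi, mul_zero]

/-- a common denominator -/
theorem exists_den (q : I → I → ℚ) : ∃ D : ℕ, 0 < D ∧ ∀ j i, ∃ n : ℤ, (n : ℚ) = D * q j i := by
  classical
  refine ⟨∏ x : I × I, (q x.1 x.2).den, Finset.prod_pos fun x _ => (q x.1 x.2).den_pos,
    fun j i => ?_⟩
  obtain ⟨c, hc⟩ : (q j i).den ∣ ∏ x : I × I, (q x.1 x.2).den :=
    Finset.dvd_prod_of_mem (fun x : I × I => (q x.1 x.2).den) (Finset.mem_univ (j, i))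
  refine ⟨c * (q j i).num, ?_⟩
  rw [hc]
  push_cast
  rw [← Rat.mul_den_eq_num]
  ring

open Classical in
theorem sum_dl (q n : I → I → ℚ) (D : ℚ) (hn : ∀ j i, n j i = D * q j i)
    (hqV : ∀ j i, i ∉ V → q j i = 0) (δ f : I → ℚ) (hf : ∀ j, ∑ i, q j i * f i = f j) :
    ∑ i : V, (D * δ i + ∑ j ∈ Vᶜ, δ j * n j i) * f i = D * ∑ i, δ i * f i := by
  rw [Finset.sum_coe_sort V (fun i => (D * δ i + ∑ j ∈ Vᶜ, δ j * n j i) * f i)]
  have h1 : ∀ i ∈ V, (D * δ i + ∑ j ∈ Vᶜ, δ j * n j i) * f i =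
      D * (δ i * f i) + ∑ j ∈ Vᶜ, D * (δ j * (q j i * f i)) := by
    intro i _
    rw [add_mul, Finset.sum_mul]
    congr 1
    · ring
    · refine Finset.sum_congr rfl fun j _ => ?_
      rw [hn]
      ring
  rw [Finset.sum_congr rfl h1, Finset.sum_add_distrib, Finset.sum_comm]
  have h2 : ∀ j ∈ Vᶜ, ∑ i ∈ V, D * (δ j * (q j i * f i)) = D * (δ j * f j) := by
    intro j _
    rw [← Finset.mul_sum, ← Finset.mul_sum]
    congr 2
    rw [← hf j]
    refine Finset.sum_subset (Finset.subset_univ V) fun i _ hi => ?_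
    rw [hqV j i hi, zero_mul]
  rw [Finset.sum_congr rfl h2, Finset.sum_add_sum_compl V (fun i => D * (δ i * f i)),
    Finset.mul_sum]

end Gen

open Classical in
theorem main (hRGD : SRgd) {σ I : Type} [Fintype σ] [Fintype I] [Nonempty I] (a : I → σ → ℕ)
    (V : Finset I) (hV : Cvx a V) (α : ℚ) (hL : LclV a V α) : Lcl (rst a V) α := by
  intro t0 hsum W hW T hT
  obtain ⟨_, hR⟩ := hRGD σ I a V hV
  set t1 : I → ℝ := fun i => if h : i ∈ V then t0 ⟨i, h⟩ else 0 with ht1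
  have ht1V : ∀ i : V, t1 i = t0 i := fun i => by
    show (if h : (i : I) ∈ V then t0 ⟨i, h⟩ else 0) = t0 i
    rw [dif_pos i.2]
  have ht1n : ∀ i, i ∉ V → t1 i = 0 := fun i hi => by
    show (if h : (i : I) ∈ V then t0 ⟨i, h⟩ else 0) = 0
    rw [dif_neg hi]
  have hsum1 : ∑ i, t1 i = α := by
    rw [← sum_V V t1 ht1n, ← hsum]
    exact Finset.sum_congr rfl fun i _ => ht1V i
  have hW1 : ∀ l ∈ W, ∑ i, (a i l : ℝ) * t1 i = -1 := by
    intro l hl
    rw [← sum_V V (fun i => (a i l : ℝ) * t1 i) (fun i hi => by rw [ht1n i hi, mul_zero]),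
      ← hW l hl]
    refine Finset.sum_congr rfl fun i _ => ?_
    rw [ht1V]
    rfl
  set T1 : Finset I := T.map (Function.Embedding.subtype _) with hT1d
  have hmT1 : ∀ i : V, (i : I) ∈ T1 ↔ i ∈ T := by
    intro i
    rw [hT1d, Finset.mem_map]
    constructor
    · rintro ⟨j, hj, e⟩
      have : j = i := Subtype.ext e
      rwa [← this]
    · intro hi
      exact ⟨i, hi, rfl⟩
  have hT1V : T1 ⊆ V := by
    intro i hi
    rw [hT1d, Finset.mem_map] at hi
    obtain ⟨j, _, rfl⟩ := hi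
    exact j.2
  have hT1 : ∀ i, i ∉ T1 → ∃ m : ℕ, t1 i = -m := by
    intro i hi
    by_cases hiV : i ∈ V
    · obtain ⟨m, hm⟩ := hT ⟨i, hiV⟩ (fun h => hi ((hmT1 ⟨i, hiV⟩).2 h))
      exact ⟨m, by rw [← hm]; exact ht1V ⟨i, hiV⟩⟩
    · exact ⟨0, by rw [ht1n i hiV, Nat.cast_zero, neg_zero]⟩
  -- the index sets
  have hZV : ∀ (κ : I → ℤ) (i : V), (i : I) ∈ Zr t1 κ ↔ i ∈ Zr t0 (fun i : V => κ i) := by
    intro κ i
    rw [mem_Zr, mem_Zr, ht1V]
  have hZn : ∀ (κ : I → ℤ) (i : I), i ∉ V → (i ∈ Zr t1 κ ↔ κ i < 0) := by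
    intro κ i hi
    rw [mem_Zr, ht1n i hi]
    constructor
    · rintro ⟨m, h1, h2⟩
      have : m = 0 := by
        have h3 : (m : ℝ) = 0 := by linarith
        exact_mod_cast h3
      rwa [this] at h2
    · intro h
      exact ⟨0, by simp, h⟩
  have hpi : ∀ κ : I → ℤ, (∀ j, j ∉ V → 0 ≤ κ j) →
      pi V (∏ i ∈ Zr t1 κ, X i) = ∏ i ∈ Zr t0 (fun i : V => κ i), X i := by
    intro κ hκ
    refine pi_prod V _ _ (fun i hi => ?_) (fun i => (hZV κ i).symm)
    by_contra hn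
    exact absurd ((hZn κ i hn).1 hi) (not_lt.2 (hκ i hn))
  have hpi0 : ∀ κ : I → ℤ, (∃ j, j ∉ V ∧ κ j < 0) → pi V (∏ i ∈ Zr t1 κ, X i) = 0 := by
    rintro κ ⟨j, hj, hlt⟩
    exact pi_prod_zero V _ ⟨j, (hZn κ j hj).2 hlt, hj⟩
  have h0 := hL t1 hsum1 ht1n W hW1 T1 hT1V hT1
  have h00 : (∏ i ∈ Zr t0 0, X i : MvPolynomial V ℂ) = pi V (∏ i ∈ Zr t1 0, X i) :=
    (hpi 0 fun j _ => le_refl _).symm
  rw [h00]
  have hmain : Ideal.span
      (({g | ∃ κ ∈ Ker a, κ ≠ 0 ∧ ((∃ j, j ∉ V ∧ κ j < 0) ∨ ∀ j, j ∉ V → κ j = 0) ∧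
          g = ∏ i ∈ Zr t1 κ, X i} ∪
        {g | ∃ δ : I → ℤ, ∑ i, δ i = 1 ∧ g = (∏ i ∈ Zr t1 δ, X i) *
          ∏ l ∈ W.filter (fun l => 0 < ∑ i, δ i * (a i l : ℤ)), lfC (fun i => (a i l : ℤ))}) ∪
        {g : MvPolynomial I ℂ | ∃ S : Finset I, Nfc a α T1 S ∧ g = ∏ i ∈ S, X i}) ≤
      (Ideal.span
      (({g | ∃ κ ∈ Ker (rst a V), κ ≠ 0 ∧ g = ∏ i ∈ Zr t0 κ, X i} ∪
        {g | ∃ δ δ' : V → ℤ, 0 < ∑ i, δ' i ∧ (∀ i, 0 ≤ δ i → 0 ≤ δ' i) ∧
          g = (∏ i ∈ Zr t0 δ, X i) *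
            ∏ l ∈ W.filter (fun l => 0 < ∑ i, δ' i * (rst a V i l : ℤ)),
              lfC (fun i => (rst a V i l : ℤ))}) ∪
        {g : MvPolynomial V ℂ | ∃ S : Finset V, Nfc (rst a V) α T S ∧ g = ∏ i ∈ S, X i})).comap
        (pi V) := by
    refine Ideal.span_le.2 ?_
    rintro g ((⟨κ, hκ, hκ0, hκV | hκV, rfl⟩ | ⟨δ, hδ, rfl⟩) | ⟨S, hS, rfl⟩)
    · rw [SetLike.mem_coe, Ideal.mem_comap]
      rw [hpi0 κ hκV]
      exact zero_mem _
    · rw [SetLike.mem_coe, Ideal.mem_comap]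
      rw [hpi κ fun j hj => (hκV j hj).ge]
      refine Ideal.subset_span (Or.inl (Or.inl ⟨fun i : V => κ i, ?_, ?_, rfl⟩))
      · refine ⟨?_, fun l => ?_⟩
        · rw [sum_V V κ hκV]
          exact hκ.1
        · have h1 := hκ.2 l
          rw [← sum_V V (fun i => κ i * (a i l : ℤ)) (fun i hi => by rw [hκV i hi, zero_mul])] at h1
          exact h1
      · intro h
        refine hκ0 (funext fun i => ?_)
        by_cases hi : i ∈ V
        · exact congrFun h ⟨i, hi⟩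
        · exact hκV i hi
    · rw [SetLike.mem_coe, Ideal.mem_comap]
      rw [map_mul]
      by_cases hneg : ∃ j, j ∉ V ∧ δ j < 0
      · rw [hpi0 δ hneg, zero_mul]
        exact zero_mem _
      · push Not at hneg
        rw [hpi δ hneg]
        choose q hq0 hqV hq1 hqa using hV
        obtain ⟨D, hD, hn⟩ := exists_den q
        choose n hn using hn
        have hn0 : ∀ j i, 0 ≤ n j i := by
          intro j i
          have h1 : (0 : ℚ) ≤ n j i := by
            rw [hn]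
            exact mul_nonneg (Nat.cast_nonneg _) (hq0 j i)
          exact_mod_cast h1
        set δ' : V → ℤ := fun i => D * δ i + ∑ j ∈ Vᶜ, δ j * n j i with hδ'
        have hkey : ∀ f : I → ℤ, (∀ j, ∑ i, q j i * (f i : ℚ) = f j) →
            ∑ i : V, δ' i * f i = D * ∑ i, δ i * f i := by
          intro f hf
          have h1 := sum_dl V q (fun j i => (n j i : ℚ)) D hn hqV (fun i => (δ i : ℚ))
            (fun i => (f i : ℚ)) hf
          have h2 : ((∑ i : V, δ' i * f i : ℤ) : ℚ) = ((D * ∑ i, δ i * f i : ℤ) : ℚ) := by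
            push_cast [hδ']
            exact h1
          exact_mod_cast h2
        have hs1 : ∑ i, δ' i = D := by
          have h1 := hkey (fun _ => 1) (fun j => by simpa using hq1 j)
          simpa [hδ] using h1
        have hsl : ∀ l, ∑ i : V, δ' i * (rst a V i l : ℤ) = D * ∑ i, δ i * (a i l : ℤ) := by
          intro l
          exact hkey (fun i => (a i l : ℤ)) (fun j => by
            have h1 := hqa j l
            push_cast
            exact h1)
        have hfil : W.filter (fun l => 0 < ∑ i, δ i * (a i l : ℤ)) =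
            W.filter (fun l => 0 < ∑ i, δ' i * (rst a V i l : ℤ)) := by
          refine Finset.filter_congr fun l _ => ?_
          rw [hsl l]
          exact (mul_pos_iff_of_pos_left (by exact_mod_cast hD)).symm
        rw [map_prod, Finset.prod_congr rfl fun l (_ : l ∈ W.filter
          (fun l => 0 < ∑ i, δ i * (a i l : ℤ))) => pi_lfC V (fun i => (a i l : ℤ)), hfil]
        refine Ideal.subset_span (Or.inl (Or.inr ⟨fun i : V => δ i, δ', ?_, ?_, rfl⟩))
        · rw [hs1]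
          exact_mod_cast hD
        · intro i hi
          refine add_nonneg (mul_nonneg (Nat.cast_nonneg _) hi) (Finset.sum_nonneg fun j hj => ?_)
          exact mul_nonneg (hneg j (Finset.mem_compl.1 hj)) (hn0 j i)
    · rw [SetLike.mem_coe, Ideal.mem_comap]
      by_cases hSV : ∃ j ∈ S, j ∉ V
      · rw [pi_prod_zero V S hSV]
        exact zero_mem _
      · push Not at hSV
        rw [pi_prod V S (S.subtype (· ∈ V)) hSV (fun i => Finset.mem_subtype)]
        refine Ideal.subset_span (Or.inr ⟨_, ?_, rfl⟩)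
        intro w hw hw0 hwα hall
        obtain ⟨hN, hF, hRi⟩ := hR w
        rw [hN] at hw0 hwα
        refine hS w (hRi hw) hw0 hwα fun i hi => ?_
        have hiV : i ∈ V := hi.elim (hSV i) (fun h => hT1V h)
        refine (hF ⟨i, hiV⟩).1 (hall ⟨i, hiV⟩ ?_)
        rcases hi with hi | hi
        · exact Or.inl (Finset.mem_subtype.2 hi)
        · exact Or.inr ((hmT1 ⟨i, hiV⟩).1 hi)
  exact hmain h0

end RES

theorem sRes (hRGD : SRgd) : SRes := by
  classical
  intro σ I _ _ _ a V hV α hL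
  exact RES.main hRGD a V hV α hL

end Pool.Newt5

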