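import Pool.Agent.H39.Newt5.Stmts

/-! # NEWTON5, module ZFV: the zeta function in terms of the series of `V` -/

set_option autoImplicit false

namespace Pool.Newt5

open MvPolynomial Pool.Agent.H39.MonoR Pool.Agent.H75.Mono Pool.Newt Pool.Newt2 Pool.Newt3
open Pool.Newt4 (Nfc)

namespace ZFV

section Gen

variable {σ I : Type} [Fintype σ] [Fintype I] (a : I → σ → ℕ) (V : Finset I) (q : I → I → ℚ)

omit [Fintype I] in
theorem dot_cast (u b : σ → ℕ) : ((dot u b : ℕ) : ℚ) = ∑ l, (u l : ℚ) * (b l : ℚ) := by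
  unfold dot
  push_cast
  rfl

theorem dot_conv (j : I) (hqa : ∀ l, ∑ i, q j i * (a i l : ℚ) = (a j l : ℚ)) (u : σ → ℕ) :
    ((dot u (a j) : ℕ) : ℚ) = ∑ i, q j i * ((dot u (a i) : ℕ) : ℚ) := by
  rw [dot_cast]
  have h1 : ∀ i, q j i * ((dot u (a i) : ℕ) : ℚ) = ∑ l, (u l : ℚ) * (q j i * (a i l : ℚ)) := by
    intro i
    rw [dot_cast, Finset.mul_sum]
    exact Finset.sum_congr rfl fun l _ => by ring
  rw [Finset.sum_congr rfl fun i _ => h1 i, Finset.sum_comm]
  refine Finset.sum_congr rfl fun l _ => ?_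
  rw [← Finset.mul_sum, hqa]

theorem face_conv (j : I) (hq0 : ∀ i, 0 ≤ q j i) (hq1 : ∑ i, q j i = 1)
    (hqa : ∀ l, ∑ i, q j i * (a i l : ℚ) = (a j l : ℚ)) (u : σ → ℕ) :
    j ∈ face a u ↔ ∀ i, q j i ≠ 0 → i ∈ face a u := by
  have hd := dot_conv a q j hqa u
  constructor
  · intro hj i hi
    have hj' : ∀ i', dot u (a j) ≤ dot u (a i') := hj
    have h1 : ∑ i, q j i * (((dot u (a i) : ℕ) : ℚ) - ((dot u (a j) : ℕ) : ℚ)) = 0 := by
      have h2 : ∀ i, q j i * (((dot u (a i) : ℕ) : ℚ) - ((dot u (a j) : ℕ) : ℚ)) =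
          q j i * ((dot u (a i) : ℕ) : ℚ) - q j i * ((dot u (a j) : ℕ) : ℚ) := fun i => by ring
      rw [Finset.sum_congr rfl fun i _ => h2 i, Finset.sum_sub_distrib, ← hd, ← Finset.sum_mul,
        hq1, one_mul, sub_self]
    have h3 := (Finset.sum_eq_zero_iff_of_nonneg (fun i _ => mul_nonneg (hq0 i)
      (sub_nonneg.2 (by exact_mod_cast hj' i)))).1 h1 i (Finset.mem_univ i)
    have h4 : ((dot u (a i) : ℕ) : ℚ) = ((dot u (a j) : ℕ) : ℚ) := by
      rcases mul_eq_zero.1 h3 with h | h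
      · exact absurd h hi
      · linarith
    have h5 : dot u (a i) = dot u (a j) := by exact_mod_cast h4
    intro i'
    rw [h5]
    exact hj' i'
  · intro h i'
    have h1 : ((dot u (a j) : ℕ) : ℚ) ≤ ((dot u (a i') : ℕ) : ℚ) := by
      rw [hd]
      have h2 : ∀ i ∈ Finset.univ, q j i * ((dot u (a i) : ℕ) : ℚ) ≤
          q j i * ((dot u (a i') : ℕ) : ℚ) := by
        intro i _
        by_cases hi : q j i = 0
        · rw [hi, zero_mul, zero_mul]
        · exact mul_le_mul_of_nonneg_left (by exact_mod_cast h i hi i') (hq0 i)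
      refine (Finset.sum_le_sum h2).trans ?_
      rw [← Finset.sum_mul, hq1, one_mul]
    exact_mod_cast h1

open Classical in
/-- the set of exponents on the face spanned by `τ` -/
noncomputable def ext (τ : Finset V) : Finset I :=
  Finset.univ.filter fun i => (∃ h : i ∈ V, (⟨i, h⟩ : V) ∈ τ) ∨
    (i ∉ V ∧ ∀ i' : I, q i i' ≠ 0 → ∃ h : i' ∈ V, (⟨i', h⟩ : V) ∈ τ)

theorem mem_ext_V (τ : Finset V) (i : V) : (i : I) ∈ ext V q τ ↔ i ∈ τ := by
  classical
  unfold ext
  rw [Finset.mem_filter]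
  constructor
  · rintro ⟨_, ⟨h, h'⟩ | ⟨h, _⟩⟩
    · exact h'
    · exact absurd i.2 h
  · intro h
    exact ⟨Finset.mem_univ _, Or.inl ⟨i.2, h⟩⟩

theorem mem_ext_n (τ : Finset V) (j : I) (hj : j ∉ V) : j ∈ ext V q τ ↔
    ∀ i' : I, q j i' ≠ 0 → ∃ h : i' ∈ V, (⟨i', h⟩ : V) ∈ τ := by
  classical
  unfold ext
  rw [Finset.mem_filter]
  constructor
  · rintro ⟨_, ⟨h, _⟩ | ⟨_, h⟩⟩
    · exact absurd h hj
    · exact h
  · intro h
    exact ⟨Finset.mem_univ _, Or.inr ⟨hj, h⟩⟩

theorem ext_inj : Function.Injective (ext V q) := by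
  intro τ τ' h
  ext i
  rw [← mem_ext_V V q τ i, ← mem_ext_V V q τ' i, h]

theorem ext_empty (hq1 : ∀ j, ∑ i, q j i = 1) : ext V q ∅ = ∅ := by
  classical
  refine Finset.eq_empty_of_forall_notMem fun j hj => ?_
  by_cases hjV : j ∈ V
  · have := (mem_ext_V V q ∅ ⟨j, hjV⟩).1 hj
    exact absurd this (Finset.notMem_empty _)
  · rw [mem_ext_n V q ∅ j hjV] at hj
    have h0 : ∑ i, q j i = 0 := by
      refine Finset.sum_eq_zero fun i _ => ?_
      by_contra h
      obtain ⟨_, h'⟩ := hj i h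
      exact absurd h' (Finset.notMem_empty _)
    rw [hq1 j] at h0
    exact one_ne_zero h0

theorem face_iff (hq0 : ∀ j i, 0 ≤ q j i) (hqV : ∀ j i, i ∉ V → q j i = 0)
    (hq1 : ∀ j, ∑ i, q j i = 1) (hqa : ∀ j l, ∑ i, q j i * (a i l : ℚ) = (a j l : ℚ))
    (u : σ → ℕ) (hF : ∀ i : V, i ∈ face (rst a V) u ↔ (i : I) ∈ face a u) (τ : Finset V) :
    face a u = (ext V q τ : Set I) ↔ face (rst a V) u = (τ : Set V) := by
  constructor
  · intro h
    ext i
    rw [hF, h, Finset.mem_coe, Finset.mem_coe, mem_ext_V]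
  · intro h
    have h' : ∀ i : V, (i : I) ∈ face a u ↔ i ∈ τ := fun i => by
      rw [← hF, h, Finset.mem_coe]
    ext j
    rw [Finset.mem_coe]
    by_cases hj : j ∈ V
    · rw [h' ⟨j, hj⟩, ← mem_ext_V V q τ ⟨j, hj⟩]
    · rw [mem_ext_n V q τ j hj, face_conv a q j (hq0 j) (hq1 j) (hqa j) u]
      constructor
      · intro hh i hi
        have hiV : i ∈ V := by
          by_contra hn
          exact hi (hqV j i hn)
        exact ⟨hiV, (h' ⟨i, hiV⟩).1 (hh i hi)⟩
      · intro hh i hi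
        obtain ⟨hiV, hiτ⟩ := hh i hi
        exact (h' ⟨i, hiV⟩).2 hiτ

theorem rk_ext (hqa : ∀ j l, ∑ i, q j i * (a i l : ℚ) = (a j l : ℚ)) (τ : Finset V) :
    rk a (ext V q τ) = rk (rst a V) τ := by
  unfold rk
  have e : Submodule.span ℚ (Set.range fun (i : ext V q τ) (l : σ) => (a i l : ℚ)) =
      Submodule.span ℚ (Set.range fun (i : τ) (l : σ) => (rst a V i l : ℚ)) := by
    refine le_antisymm (Submodule.span_le.2 ?_) (Submodule.span_le.2 ?_)
    · rintro _ ⟨⟨j, hj⟩, rfl⟩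
      by_cases hjV : j ∈ V
      · exact Submodule.subset_span ⟨⟨⟨j, hjV⟩, (mem_ext_V V q τ ⟨j, hjV⟩).1 hj⟩, rfl⟩
      · rw [mem_ext_n V q τ j hjV] at hj
        have h1 : (fun l : σ => (a j l : ℚ)) = ∑ i, q j i • fun l : σ => (a i l : ℚ) := by
          funext l
          rw [Finset.sum_apply]
          exact (hqa j l).symm
        show (fun l : σ => (a j l : ℚ)) ∈ _
        rw [h1]
        refine Submodule.sum_mem _ fun i _ => ?_
        by_cases hi : q j i = 0
        · rw [hi, zero_smul]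
          exact Submodule.zero_mem _
        · obtain ⟨hiV, hiτ⟩ := hj i hi
          exact Submodule.smul_mem _ _ (Submodule.subset_span ⟨⟨⟨i, hiV⟩, hiτ⟩, rfl⟩)
    · rintro _ ⟨⟨i, hi⟩, rfl⟩
      exact Submodule.subset_span ⟨⟨(i : I), (mem_ext_V V q τ i).2 hi⟩, rfl⟩
  rw [e]

theorem q_val (ha : Function.Injective a) (hq0 : ∀ j i, 0 ≤ q j i)
    (hq1 : ∀ j, ∑ i, q j i = 1) (hqa : ∀ j l, ∑ i, q j i * (a i l : ℚ) = (a j l : ℚ))
    (τ : Finset V) (i : V) (l : σ) (h : Val (rst a V) τ i l) (j : I) (hj : j ∉ V)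
    (hje : j ∈ ext V q τ) : q j i = 0 ∧ a j l = 0 := by
  classical
  obtain ⟨_, h1, h2⟩ := h
  rw [mem_ext_n V q τ j hj] at hje
  have hs : (a j l : ℚ) = q j i := by
    rw [← hqa j l, Finset.sum_eq_single (i : I)]
    · have : a (i : I) l = 1 := h1
      rw [this, Nat.cast_one, mul_one]
    · intro i' _ hne
      by_cases hi' : q j i' = 0
      · rw [hi', zero_mul]
      · obtain ⟨hV, hτ⟩ := hje i' hi'
        have h3 : a i' l = 0 := h2 ⟨i', hV⟩ hτ (fun e => hne (congrArg Subtype.val e))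
        rw [h3, Nat.cast_zero, mul_zero]
    · exact fun hn => absurd (Finset.mem_univ _) hn
  have hle : q j i ≤ 1 := by
    rw [← hq1 j]
    exact Finset.single_le_sum (fun i _ => hq0 j i) (Finset.mem_univ (i : I))
  have hle' : a j l ≤ 1 := by
    rw [← hs] at hle
    exact_mod_cast hle
  have hne : a j l ≠ 1 := by
    intro h1'
    have hq : q j i = 1 := by rw [← hs, h1', Nat.cast_one]
    have h0 : ∀ i', i' ≠ (i : I) → q j i' = 0 := by
      intro i' hne'
      have h3 := hq1 j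
      rw [← Finset.add_sum_erase _ _ (Finset.mem_univ (i : I)), hq] at h3
      have h4 : ∑ x ∈ Finset.univ.erase (i : I), q j x = 0 := by linarith
      exact (Finset.sum_eq_zero_iff_of_nonneg (fun x _ => hq0 j x)).1 h4 i'
        (Finset.mem_erase.2 ⟨hne', Finset.mem_univ _⟩)
    have he : a j = a i := by
      funext l'
      have h5 : (a j l' : ℚ) = (a i l' : ℚ) := by
        rw [← hqa j l', Finset.sum_eq_single (i : I)]
        · rw [hq, one_mul]
        · intro i' _ hne'
          rw [h0 i' hne', zero_mul]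
        · exact fun hn => absurd (Finset.mem_univ _) hn
      exact_mod_cast h5
    have := ha he
    rw [this] at hj
    exact hj i.2
  have h0 : a j l = 0 := by omega
  refine ⟨?_, h0⟩
  rw [← hs, h0, Nat.cast_zero]

end Gen

open Classical in
theorem main (hZFM : SZfm) (hRGD : SRgd) : SZfv := by
  intro k _ _ σ I _ _ _ a c hc hnd ha V hV
  obtain ⟨_, hR⟩ := hRGD σ I a V hV
  choose q hq0 hqV hq1 hqa using hV
  obtain ⟨C, hC, hC1, hC0, Z0, hZ0, hZ⟩ := hZFM k σ I a c hc hnd
  have hface : ∀ (u : σ → ℕ) (τ : Finset V), face a u = (ext V q τ : Set I) ↔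
      face (rst a V) u = (τ : Set V) := fun u τ =>
    face_iff a V q hq0 hqV hq1 hqa u (hR u).2.1 τ
  have hrk : ∀ τ, rk a (ext V q τ) = rk (rst a V) τ := rk_ext a V q hqa
  refine ⟨fun τ v => C (ext V q τ) v, ?_, ?_, ?_, Z0, hZ0, ?_⟩
  · intro τ i l v hval
    have hq := q_val a V q ha hq0 hq1 hqa τ i l hval
    have hval' : Val a (ext V q τ) (i : I) l := by
      refine ⟨(mem_ext_V V q τ i).2 hval.1, hval.2.1, fun i' hi' hne => ?_⟩
      by_cases hiV : i' ∈ V
      · exact hval.2.2 ⟨i', hiV⟩ ((mem_ext_V V q τ ⟨i', hiV⟩).1 hi')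
          (fun e => hne (congrArg Subtype.val e))
      · exact (hq i' hiV hi').2
    have herase : (ext V q τ).erase (i : I) = ext V q (τ.erase i) := by
      ext j
      rw [Finset.mem_erase]
      by_cases hj : j ∈ V
      · rw [mem_ext_V V q τ ⟨j, hj⟩, mem_ext_V V q (τ.erase i) ⟨j, hj⟩, Finset.mem_erase]
        constructor
        · rintro ⟨h1, h2⟩
          exact ⟨fun e => h1 (congrArg Subtype.val e), h2⟩
        · rintro ⟨h1, h2⟩
          exact ⟨fun e => h1 (Subtype.ext e), h2⟩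
      · constructor
        · rintro ⟨h1, h2⟩
          have h3 := (hq j hj h2).1
          rw [mem_ext_n V q _ j hj] at h2 ⊢
          intro i' hi'
          obtain ⟨hV', hτ'⟩ := h2 i' hi'
          refine ⟨hV', Finset.mem_erase.2 ⟨fun e => hi' ?_, hτ'⟩⟩
          have : i' = (i : I) := congrArg Subtype.val e
          rw [this]
          exact h3
        · intro h
          rw [mem_ext_n V q _ j hj] at h ⊢
          refine ⟨fun e => hj (e ▸ i.2), fun i' hi' => ?_⟩
          obtain ⟨hV', hτ'⟩ := h i' hi'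
          exact ⟨hV', Finset.mem_of_mem_erase hτ'⟩
    have h1 := hC (ext V q τ) i l v hval'
    rw [herase, hrk] at h1
    exact h1
  · show C (ext V q ∅) 1 = 0
    rw [ext_empty V q hq1]
    exact hC1
  · show C (ext V q ∅) 0 = 1
    rw [ext_empty V q hq1]
    exact hC0
  · rw [hZ]
    congr 1
    have hFs : ∀ τ, Fs a (ext V q τ) = Fs (rst a V) τ := by
      intro τ
      unfold Fs
      congr 1
      funext N
      by_cases hN : N = 0
      · rw [if_pos hN, if_pos hN]
      · rw [if_neg hN, if_neg hN]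
        unfold Fc
        rw [hrk]
        refine Finset.sum_congr ?_ fun u _ => rfl
        refine Finset.filter_congr fun u _ => ?_
        rw [hface, (hR u).1]
    have hFz : ∀ τ', τ' ∉ Set.range (ext V q) → Fs a τ' = 0 := by
      intro τ' hτ'
      ext N
      unfold Fs
      rw [PowerSeries.coeff_mk, map_zero]
      by_cases hN : N = 0
      · rw [if_pos hN]
      · rw [if_neg hN]
        unfold Fc
        rw [Finset.sum_eq_zero]
        intro u hu
        exfalso
        obtain ⟨_, hu1, _⟩ := Finset.mem_filter.1 hu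
        refine hτ' ⟨Finset.univ.filter fun i : V => (i : I) ∈ τ', ?_⟩
        have h1 : face (rst a V) u =
            ((Finset.univ.filter fun i : V => (i : I) ∈ τ' : Finset V) : Set V) := by
          ext i
          rw [(hR u).2.1, hu1]
          simp
        have h2 := (hface u _).2 h1
        rw [hu1] at h2
        exact (Finset.coe_injective h2).symm
    symm
    refine Fintype.sum_of_injective (ext V q) (ext_inj V q) _ _ (fun τ' hτ' => ?_) (fun τ => ?_)
    · rw [hFz τ' hτ', map_zero, mul_zero]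
    · rw [hFs]

end ZFV

theorem sZfv (hZFM : SZfm) (hRGD : SRgd) : SZfv := ZFV.main hZFM hRGD

end Pool.Newt5

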